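import Pool.Agent.P.MP_013f39_al.Inf.All

/-! All continuous cohomology groups `H^n(H_r, F_p)`, `n ≥ 1`, are non-zero. -/

namespace Pool.Agent.Results.MP_013f39_al.CdInfinite

open PowerSeries
open scoped PowerSeries.WithPiTopology

/-- The group `H_r`: all series `x (a_0 + a_1 x^q + a_2 x^(2q) + ...)` with `a_0 = 1`, `q = p^r`. -/
def H (p r : ℕ) : Set (PowerSeries (ZMod p)) :=
  {f | ∃ a : ℕ → ZMod p, a 0 = 1 ∧
    f = X * (PowerSeries.mk a).subst (X ^ p ^ r : PowerSeries (ZMod p))}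

/-- Composition of series: `comp f g = f(g(x))`. -/
noncomputable def comp {p : ℕ} (f g : PowerSeries (ZMod p)) : PowerSeries (ZMod p) := f.subst g

/-- Homogeneous continuous cochains: continuous on `H_r^m` and invariant under left translation. -/
def IsCochain (p r m : ℕ) (c : (Fin m → PowerSeries (ZMod p)) → ZMod p) : Prop :=
  ContinuousOn c (Set.univ.pi fun _ => H p r) ∧
    ∀ g ∈ H p r, ∀ x, (∀ i, x i ∈ H p r) → c (fun i => comp g (x i)) = c x

/-- The coboundary: alternating sum over the omitted argument. -/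
def cobd {p m : ℕ} (c : (Fin m → PowerSeries (ZMod p)) → ZMod p)
    (x : Fin (m + 1) → PowerSeries (ZMod p)) : ZMod p :=
  ∑ l : Fin (m + 1), (-1) ^ (l : ℕ) * c fun i => x (l.succAbove i)

theorem result (p r n : ℕ) (hp : p.Prime) (hr : 1 ≤ r) (hn : 1 ≤ n) :
    ∃ c : (Fin (n + 1) → PowerSeries (ZMod p)) → ZMod p, IsCochain p r (n + 1) c ∧
      (∀ x, (∀ i, x i ∈ H p r) → cobd c x = 0) ∧
      ¬ ∃ b : (Fin n → PowerSeries (ZMod p)) → ZMod p, IsCochain p r n b ∧
        ∀ x, (∀ i, x i ∈ H p r) → c x = cobd b x := by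
  have : Fact p.Prime := ⟨hp⟩
  obtain ⟨m, rfl⟩ : ∃ m, n = m + 1 := ⟨n - 1, by omega⟩
  refine CdI.top_holds p r m (H p r) (fun f => ⟨?_, ?_⟩) (CdI.not_van p r m hr)
  · rintro ⟨a, ha, rfl⟩
    exact ⟨⟨PowerSeries.mk a, by simpa using ha⟩, rfl⟩
  · rintro ⟨u, rfl⟩
    refine ⟨fun n => coeff n u.val, by simpa using u.cc, ?_⟩
    have : (PowerSeries.mk fun n => coeff n u.val) = u.val := by ext; simp
    rw [this]; rfl

end Pool.Agent.Results.MP_013f39_al.CdInfinite
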